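import Pool.Agent.W2helper6.RT.Obj

/-!
# Ordinary primes for the class generated by motives with multiplications
-/

set_option autoImplicit false

namespace Pool.Agent.W2helper6.RT

open Finset NumberField IsDedekindDomain Polynomial Filter Topology
open Pool.Agent.W401.Cheb Pool.Agent.W528.Ord Pool.Agent.R915.Ord Pool.Agent.W850.Ord
open MultSystem (IsDeg1 IsOver norm_mem)

section good

variable {K : Type} [Field K] [NumberField K] {ℓ : ℕ} [Fact ℓ.Prime] {ι : Type} [Fintype ι]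
  (A : ι → MotSystem K ℓ) (χ : GK K →* (PadicAlgCl ℓ)ˣ)
  (S : ι → Finset ℕ) (hA : ∀ i, (A i).IsMotive χ (S i))

include hA in
/-- at a good place all the pieces are ordinary, for one embedding -/
theorem good_pieces {v : HeightOneSpectrum (𝓞 K)} (hv : Good A S v) :
    ∃ (p : ℕ) (_ : Fact p.Prime) (τ : AlgebraicClosure K →+* PadicAlgCl p),
      Ideal.absNorm v.asIdeal = p ∧ Induces τ v ∧
      ∀ i (σ : (A i).E →+* AlgebraicClosure K), (Obj.piece (A i) σ).OrdAt v τ := by
  classical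
  obtain ⟨hv1, hvS, Q, hQ, hno⟩ := hv
  obtain ⟨p, hpe⟩ : ∃ p, Ideal.absNorm v.asIdeal = p := ⟨_, rfl⟩
  have hpp : p.Prime := hpe ▸ hv1
  haveI : Fact p.Prime := ⟨hpp⟩
  have hpQ := norm_mem hv1 hQ.2
  rw [hpe] at hpQ
  obtain ⟨τ, hτ⟩ := exists_tau (p := p) Q hQ.1 hpQ
  refine ⟨p, inferInstance, τ, hpe, ?_, ?_⟩
  · intro x hx
    have h1 : algebraMap (𝓞 K) (𝓞 (AlgebraicClosure K)) x ∈ Q := by
      have h2 : x ∈ Q.comap (algebraMap (𝓞 K) (𝓞 (AlgebraicClosure K))) := by
        rw [hQ.2]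
        exact hx
      exact h2
    have h3 := (hτ _).1 h1
    exact h3
  · intro i σ
    have h1 := MotSystem.roots_part (hA i) ⟨hv1, hvS i⟩ hQ hpe hτ σ (fun k hk => hno i σ k hk)
    have h2 : (((A i).poly v σ).roots).map (fun y => ‖τ y‖) =
        (((A i).h σ : Multiset ℕ)).map fun a => (1 / (p : ℝ)) ^ a := by
      rw [← h1]
      have e : (A i).poly v (τ.comp σ) = ((A i).poly v σ).map τ := by
        unfold MotSystem.poly
        rw [Polynomial.map_map]
        rfl
      rw [e, Splits.roots_map (IsAlgClosed.splits _), Multiset.map_map]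
      rfl
    have hp1 : (1 : ℝ) < p := by exact_mod_cast hpp.one_lt
    constructor
    · intro h0
      have h3 : ‖τ (0 : AlgebraicClosure K)‖ ∈ (((A i).poly v σ).roots).map (fun y => ‖τ y‖) :=
        Multiset.mem_map_of_mem _ h0
      rw [h2, Multiset.mem_map] at h3
      obtain ⟨a, -, ha⟩ := h3
      rw [map_zero, norm_zero] at ha
      have : (0 : ℝ) < (1 / (p : ℝ)) ^ a := by positivity
      linarith
    · have h4 := congrArg (fun M : Multiset ℝ => M.map fun y => - Real.logb p y) h2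
      simp only [Multiset.map_map] at h4
      change (((A i).poly v σ).roots).map (slope τ) =
        (((A i).h σ : Multiset ℕ).map fun a : ℕ => (a : ℤ)).map fun a : ℤ => (a : ℝ)
      rw [Multiset.map_map]
      refine Eq.trans ?_ (h4.trans ?_)
      · rfl
      · refine Multiset.map_congr rfl fun a _ => ?_
        simp only [Function.comp]
        rw [Real.logb_pow, one_div, Real.logb_inv, Real.logb_self_eq_one hp1]
        push_cast
        ring

end good

section down

variable {K₀ K : Type} [Field K₀] [NumberField K₀] [Field K] [NumberField K] [Algebra K₀ K]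
    {ℓ : ℕ} [Fact ℓ.Prime] {ι : Type} [Fintype ι] (A : ι → MotSystem K ℓ)
    (χ : GK K →* (PadicAlgCl ℓ)ˣ) (S : ι → Finset ℕ) (hA : ∀ i, (A i).IsMotive χ (S i))

/-- Over the finite extension `K` of `K₀` the motive over `K₀` with the Frobenius polynomials `F` and the
Hodge slopes `H` belongs to the class generated by the `A i`. -/
def IsReached {K₀ K : Type} [Field K₀] [NumberField K₀] [Field K] [NumberField K] [Algebra K₀ K]
    {ℓ : ℕ} [Fact ℓ.Prime] {ι : Type} (A : ι → MotSystem K ℓ)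
    (F : HeightOneSpectrum (𝓞 K₀) → ℤ[X]) (H : Multiset ℕ) : Prop :=
  ∃ X : Obj K, Reach A X ∧ X.hs = H.map (fun a : ℕ => (a : ℤ)) ∧
    ∃ B : Finset ℕ, ∀ (v₀ : HeightOneSpectrum (𝓞 K₀)) (v : HeightOneSpectrum (𝓞 K)),
      v.asIdeal.comap (algebraMap (𝓞 K₀) (𝓞 K)) = v₀.asIdeal → IsDeg1 B v →
        X.ev v = ((F v₀).map (Int.castRingHom (AlgebraicClosure K))).roots

include hA in
theorem newton_of_reached {F : HeightOneSpectrum (𝓞 K₀) → ℤ[X]} {H : Multiset ℕ}
    (hF : IsReached A F H) : ∃ B : Finset ℕ, ∀ v₀ : HeightOneSpectrum (𝓞 K₀),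
      Below K₀ A S v₀ → Ideal.absNorm v₀.asIdeal ∉ B →
        (Ideal.absNorm v₀.asIdeal).Prime ∧ NewtonSlopes (Ideal.absNorm v₀.asIdeal) (F v₀) H := by
  classical
  obtain ⟨X, hX, hH, B, hB⟩ := hF
  obtain ⟨B', hB'⟩ := hX.ordAt
  refine ⟨B ∪ B', ?_⟩
  rintro v₀ ⟨v, h0, hv⟩ hn
  have e := under_norm v hv.1 v₀ h0
  rw [e] at hn ⊢
  refine ⟨hv.1, ?_⟩
  have hv1 : IsDeg1 B v := ⟨hv.1, fun hm => hn (mem_union_left _ hm)⟩
  have hv2 : IsDeg1 B' v := ⟨hv.1, fun hm => hn (mem_union_right _ hm)⟩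
  obtain ⟨p, hp, τ, hpe, hind, hpc⟩ := good_pieces A χ S hA (v := v) hv
  obtain ⟨h1, h2⟩ := hB' v hv2 p τ hpe hind hpc
  have h3 := hB v₀ v h0 hv1
  rw [hpe]
  refine ⟨hp, ?_⟩
  have e1 : (F v₀).map (Int.castRingHom (PadicAlgCl p)) =
      ((F v₀).map (Int.castRingHom (AlgebraicClosure K))).map τ := by
    rw [Polynomial.map_map]
    congr 1
    exact (RingHom.ext_int _ _)
  rw [e1, Splits.roots_map (IsAlgClosed.splits _), ← h3, Multiset.map_map]
  have hp1 : (1 : ℝ) < p := by exact_mod_cast (Fact.out : p.Prime).one_lt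
  unfold Obj.newton Obj.hodge at h2
  rw [hH, Multiset.map_map] at h2
  have h4 := congrArg (fun M : Multiset ℝ => M.map fun y => (p : ℝ) ^ (-y)) h2
  simp only [Multiset.map_map] at h4
  refine Eq.trans ?_ (h4.trans ?_)
  · refine Multiset.map_congr rfl fun x hx => ?_
    have hx0 : x ≠ 0 := fun h => h1 (h ▸ hx)
    have hpos : 0 < ‖τ x‖ := lt_of_le_of_ne (norm_nonneg _) (norm_ne τ hx0).symm
    simp only [Function.comp, slope]
    rw [neg_neg, Real.rpow_logb (by linarith) hp1.ne' hpos]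
  · refine Multiset.map_congr rfl fun a _ => ?_
    simp only [Function.comp]
    push_cast
    rw [Real.rpow_neg (by linarith), Real.rpow_natCast, one_div, inv_pow]

end down

end Pool.Agent.W2helper6.RT
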