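import Mathlib

/-!
# Majorization for real slopes
-/

set_option autoImplicit false

namespace Pool.Agent.W2helper6.RT

/-- The polygon with the slopes `n` lies on or above the polygon with the slopes `h`, and both have the
same end point. -/
def Above (n h : Multiset ℝ) : Prop :=
  n.card = h.card ∧ n.sum = h.sum ∧
    ∀ k : ℕ, ((h.sort (· ≤ ·)).take k).sum ≤ ((n.sort (· ≤ ·)).take k).sum

namespace MAJ

/-- extension by zero -/
noncomputable def ext {n : ℕ} (g : Fin n → ℝ) (i : ℕ) : ℝ := if h : i < n then g ⟨i, h⟩ else 0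

lemma ext_fin {n : ℕ} (g : Fin n → ℝ) (j : Fin n) : ext g j = g j := by
  unfold ext
  rw [dif_pos j.2]

lemma sum_ext {n : ℕ} (g : Fin n → ℝ) (k : ℕ) (hk : k ≤ n) :
    ∑ i ∈ Finset.range k, ext g i =
      ∑ j ∈ Finset.univ.filter (fun j : Fin n => (j : ℕ) < k), g j := by
  rw [Finset.sum_filter]
  have h1 : ∑ j : Fin n, (if (j : ℕ) < k then g j else 0) =
      ∑ j : Fin n, (fun i : ℕ => if i < k then ext g i else 0) j := by
    refine Finset.sum_congr rfl fun j _ => ?_
    show _ = if (j : ℕ) < k then ext g j else 0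
    rw [ext_fin]
  rw [h1, Fin.sum_univ_eq_sum_range (fun i : ℕ => if i < k then ext g i else 0) n,
    ← Finset.sum_filter]
  refine Finset.sum_congr ?_ fun _ _ => rfl
  ext i
  simp only [Finset.mem_range, Finset.mem_filter]
  omega

lemma abel {n : ℕ} (a g : Fin n → ℝ) (ha : Monotone a)
    (hg : ∀ k : ℕ, ∑ j ∈ Finset.univ.filter (fun j : Fin n => (j : ℕ) < k), g j ≤ 0)
    (h0 : ∑ j, g j = 0) : 0 ≤ ∑ j, a j * g j := by
  have h1 : ∑ j, a j * g j = ∑ i ∈ Finset.range n, ext a i • ext g i := by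
    rw [← Fin.sum_univ_eq_sum_range (fun i : ℕ => ext a i • ext g i) n]
    refine Finset.sum_congr rfl fun j _ => ?_
    rw [ext_fin, ext_fin, smul_eq_mul]
  have h2 : ∑ i ∈ Finset.range n, ext g i = 0 := by
    rw [sum_ext g n le_rfl, ← h0]
    refine Finset.sum_congr ?_ fun _ _ => rfl
    ext j
    simp
  rw [h1, Finset.sum_range_by_parts, h2, smul_zero, zero_sub, neg_nonneg]
  refine Finset.sum_nonpos fun i hi => ?_
  rw [Finset.mem_range] at hi
  have hi1 : i + 1 < n := by omega
  have h3 : ∑ j ∈ Finset.range (i + 1), ext g j ≤ 0 := by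
    rw [sum_ext g (i + 1) hi1.le]
    exact hg (i + 1)
  have h4 : 0 ≤ ext a (i + 1) - ext a i := by
    unfold ext
    rw [dif_pos hi1, dif_pos (by omega : i < n), sub_nonneg]
    apply ha
    rw [Fin.le_def]
    exact Nat.le_succ i
  rw [smul_eq_mul]
  exact mul_nonpos_of_nonneg_of_nonpos h4 h3

theorem maj (n : ℕ) (a b : Fin n → ℝ) (ha : Monotone a)
    (hk : ∀ k : ℕ, ∑ j ∈ Finset.univ.filter (fun j : Fin n => (j : ℕ) < k), b j ≤
      ∑ j ∈ Finset.univ.filter (fun j : Fin n => (j : ℕ) < k), a j)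
    (hs : ∑ j, a j = ∑ j, b j) :
    ∑ j, a j ^ 2 ≤ ∑ j, b j ^ 2 ∧ (∑ j, b j ^ 2 ≤ ∑ j, a j ^ 2 → a = b) := by
  have h1 : 0 ≤ ∑ j, a j * (b j - a j) := by
    apply abel a (fun j => b j - a j) ha
    · intro k
      rw [Finset.sum_sub_distrib]
      linarith [hk k]
    · rw [Finset.sum_sub_distrib, hs, sub_self]
  have h2 : ∑ j, (b j - a j) ^ 2 = ∑ j, b j ^ 2 - ∑ j, a j ^ 2 - 2 * ∑ j, a j * (b j - a j) := by
    rw [Finset.mul_sum, ← Finset.sum_sub_distrib, ← Finset.sum_sub_distrib]
    refine Finset.sum_congr rfl fun j _ => ?_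
    ring
  have h3 : 0 ≤ ∑ j, (b j - a j) ^ 2 := Finset.sum_nonneg fun j _ => sq_nonneg _
  refine ⟨by linarith, fun h => ?_⟩
  have h4 : ∑ j, (b j - a j) ^ 2 = 0 := by linarith
  funext j
  have h5 := (Finset.sum_eq_zero_iff_of_nonneg (fun j _ => sq_nonneg (b j - a j))).1 h4 j
    (Finset.mem_univ j)
  have h6 : b j - a j = 0 := by simpa using h5
  linarith

end MAJ

/-- A polygon above another one with the same end point has a smaller sum of the squares of the
slopes, with equality only if the polygons are equal. -/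
lemma Above.maj {n h : Multiset ℝ} (H : Above n h) :
    (n.map (fun x => x ^ 2)).sum ≤ (h.map (fun x => x ^ 2)).sum ∧
      ((h.map (fun x => x ^ 2)).sum ≤ (n.map (fun x => x ^ 2)).sum → n = h) := by
  obtain ⟨h1, h2, h3⟩ := H
  set ln := n.sort (· ≤ ·) with hln
  set lh := h.sort (· ≤ ·) with hlh
  have e1 : ln.length = lh.length := by rw [hln, hlh, Multiset.length_sort, Multiset.length_sort, h1]
  have cn : (ln : Multiset ℝ) = n := Multiset.sort_eq _ _
  have ch : (lh : Multiset ℝ) = h := Multiset.sort_eq _ _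
  let a : Fin ln.length → ℝ := ln.get
  let b : Fin ln.length → ℝ := fun j => lh.get (Fin.cast e1 j)
  have oa : List.ofFn a = ln := List.ofFn_get ln
  have ob : List.ofFn b = lh := by
    apply List.ext_get
    · simp [e1]
    · intro i _ _
      simp [b]
  have sa : ∀ f : ℝ → ℝ, ∑ j, f (a j) = (n.map f).sum := by
    intro f
    rw [← cn, Multiset.map_coe, Multiset.sum_coe, ← List.sum_ofFn]
    conv_rhs => rw [← oa]
    rw [List.map_ofFn]
    rfl
  have sb : ∀ f : ℝ → ℝ, ∑ j, f (b j) = (h.map f).sum := by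
    intro f
    rw [← ch, Multiset.map_coe, Multiset.sum_coe, ← List.sum_ofFn]
    conv_rhs => rw [← ob]
    rw [List.map_ofFn]
    rfl
  have mono : Monotone a := by
    intro i j hij
    exact (Multiset.pairwise_sort n (· ≤ ·)).rel_get_of_le hij
  have habove : ∀ k : ℕ, ∑ j ∈ Finset.univ.filter (fun j : Fin ln.length => (j : ℕ) < k), b j ≤
      ∑ j ∈ Finset.univ.filter (fun j : Fin ln.length => (j : ℕ) < k), a j := by
    intro k
    have := h3 k
    have t1 := List.sum_take_ofFn a k
    have t2 := List.sum_take_ofFn b k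
    rw [oa] at t1
    rw [ob] at t2
    rw [t1, t2] at this
    exact this
  have hend : ∑ j, a j = ∑ j, b j := by
    have i1 := sa (fun x => x)
    have i2 := sb (fun x => x)
    simp only [Multiset.map_id'] at i1 i2
    rw [i1, i2, h2]
  obtain ⟨m1, m2⟩ := MAJ.maj ln.length a b mono habove hend
  have q1 := sa (fun x => x ^ 2)
  have q2 := sb (fun x => x ^ 2)
  constructor
  · rw [← q1, ← q2]; exact m1
  · intro hle
    rw [← q1, ← q2] at hle
    have hab := m2 hle
    rw [← cn, ← ch, ← oa, ← ob, hab]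

end Pool.Agent.W2helper6.RT
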