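import Pool.Agent.W2helper6.RT.Quad
import Pool.Agent.W850.Ord.LowDens

/-!
# The class of motives reached by tensor constructions and their roots
-/

set_option autoImplicit false

namespace Pool.Agent.W2helper6.RT

open Finset NumberField IsDedekindDomain Polynomial Filter Topology
open Pool.Agent.W401.Cheb Pool.Agent.W528.Ord Pool.Agent.R915.Ord Pool.Agent.W850.Ord
open MultSystem (IsDeg1 IsOver norm_mem)

/-- The numerical data of a motive over the number field `K`, or of a direct summand of a motive with
coefficients in the algebraic closure of `K`: the eigenvalues of the geometric Frobenius elements of the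
places of `K`, and the Hodge slopes (the `p` with multiplicity `h^{p, q}`; negative for duals). -/
structure Obj (K : Type) [Field K] [NumberField K] where
  ev : HeightOneSpectrum (𝓞 K) → Multiset (AlgebraicClosure K)
  hs : Multiset ℤ

section

variable {K : Type} [Field K] [NumberField K]

/-- the inverse of the Tate motive: the Frobenius element of `v` acts as the norm of `v` -/
noncomputable def Obj.tate (K : Type) [Field K] [NumberField K] : Obj K where
  ev v := {((Ideal.absNorm v.asIdeal : ℕ) : AlgebraicClosure K)}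
  hs := {1}

/-- the `σ`-part of a pure motive with multiplication by the field `A.E` -/
noncomputable def Obj.piece {ℓ : ℕ} [Fact ℓ.Prime] (A : MotSystem K ℓ)
    (σ : A.E →+* AlgebraicClosure K) : Obj K where
  ev v := (A.poly v σ).roots
  hs := (A.h σ : Multiset ℕ).map fun a : ℕ => (a : ℤ)

/-- the slope of the algebraic number `x` with respect to the embedding `τ` -/
noncomputable def slope {p : ℕ} [Fact p.Prime] (τ : AlgebraicClosure K →+* PadicAlgCl p)
    (x : AlgebraicClosure K) : ℝ := - Real.logb p ‖τ x‖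

/-- the embedding `τ` induces the place `v` of `K` -/
def Induces {p : ℕ} [Fact p.Prime] (τ : AlgebraicClosure K →+* PadicAlgCl p)
    (v : HeightOneSpectrum (𝓞 K)) : Prop :=
  ∀ x ∈ v.asIdeal, ‖τ (algebraMap K (AlgebraicClosure K) (x : K))‖ < 1

/-- the Newton slopes of the Frobenius element of `v` -/
noncomputable def Obj.newton (X : Obj K) (v : HeightOneSpectrum (𝓞 K)) {p : ℕ} [Fact p.Prime]
    (τ : AlgebraicClosure K →+* PadicAlgCl p) : Multiset ℝ := (X.ev v).map (slope τ)

/-- the Hodge slopes, as real numbers -/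
noncomputable def Obj.hodge (X : Obj K) : Multiset ℝ := X.hs.map fun a : ℤ => (a : ℝ)

/-- Mazur's inequality: at the places of degree one outside a finite set of residue characteristics the
Newton polygon lies on or above the Hodge polygon, with the same end point. -/
def Obj.Mazur (X : Obj K) : Prop :=
  ∃ B : Finset ℕ, ∀ v : HeightOneSpectrum (𝓞 K), IsDeg1 B v → 0 ∉ X.ev v ∧
    ∀ (p : ℕ) [Fact p.Prime] (τ : AlgebraicClosure K →+* PadicAlgCl p), Induces τ v →
      Above (X.newton v τ) X.hodge

/-- `Y` is obtained from the `X i` by the tensor construction `T`: the Hodge slopes of `Y` are the values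
of the weights of `T` at the Hodge slopes of the `X i`, and, at the places of degree one outside a finite
set of residue characteristics, the Frobenius eigenvalues of `Y` are the values of the weights at the
eigenvalues of the `X i`. -/
def IsConstruct {I : Type} [Fintype I] {m : I → ℕ} (T : Construction m) (X : I → Obj K) (Y : Obj K) :
    Prop :=
  (∃ h : ∀ i, Fin (m i) → ℤ, (∀ i, univ.val.map (h i) = (X i).hs) ∧
    Y.hs = univ.val.map fun j => ∑ i, ∑ a, T.w j i a * h i a) ∧
  ∃ B : Finset ℕ, ∀ v : HeightOneSpectrum (𝓞 K), IsDeg1 B v →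
    ∃ α : ∀ i, Fin (m i) → AlgebraicClosure K, (∀ i, univ.val.map (α i) = (X i).ev v) ∧
      Y.ev v = univ.val.map fun j => ∏ i, ∏ a, α i a ^ T.w j i a

/-- **The class of motives generated by the motives with multiplications `A i`**: it contains the pieces
of the `A i` and the Tate motive, it is closed under all tensor constructions, and under their roots: if
`T (X 1, ..., X n)` belongs to the class, the `X i` satisfy Mazur's inequality and `T` depends on the
`i`-th variable in an essential way, then `X i` belongs to the class. -/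
inductive Reach {ℓ : ℕ} [Fact ℓ.Prime] {ι : Type} (A : ι → MotSystem K ℓ) : Obj K → Prop
  | piece (i : ι) (σ : (A i).E →+* AlgebraicClosure K) : Reach A (Obj.piece (A i) σ)
  | tate : Reach A (Obj.tate K)
  | up {I : Type} [Fintype I] {m : I → ℕ} (T : Construction m) (X : I → Obj K) (Y : Obj K) :
      IsConstruct T X Y → (∀ i, Reach A (X i)) → Reach A Y
  | down {I : Type} [Fintype I] {m : I → ℕ} (T : Construction m) (X : I → Obj K) (Y : Obj K) :
      IsConstruct T X Y → (∀ i, (X i).Mazur) → Reach A Y → ∀ i, T.Essential i → Reach A (X i)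

/-- `X` is ordinary at `v` with respect to the embedding `τ` -/
def Obj.OrdAt (X : Obj K) (v : HeightOneSpectrum (𝓞 K)) {p : ℕ} [Fact p.Prime]
    (τ : AlgebraicClosure K →+* PadicAlgCl p) : Prop :=
  0 ∉ X.ev v ∧ X.newton v τ = X.hodge

section slopes

variable {p : ℕ} [hp : Fact p.Prime] (τ : AlgebraicClosure K →+* PadicAlgCl p)

lemma norm_ne {x : AlgebraicClosure K} (hx : x ≠ 0) : ‖τ x‖ ≠ 0 := by
  rw [norm_ne_zero_iff]
  exact (map_ne_zero τ).2 hx

lemma slope_construct {I : Type} [Fintype I] {m : I → ℕ} (α : ∀ i, Fin (m i) → AlgebraicClosure K)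
    (h0 : ∀ i a, α i a ≠ 0) (w : ∀ i, Fin (m i) → ℤ) :
    slope τ (∏ i, ∏ a, α i a ^ w i a) = ∑ i, ∑ a, (w i a : ℝ) * slope τ (α i a) := by
  unfold slope
  have h1 : ‖τ (∏ i, ∏ a, α i a ^ w i a)‖ = ∏ i, ∏ a, ‖τ (α i a)‖ ^ w i a := by
    rw [map_prod, norm_prod]
    refine prod_congr rfl fun i _ => ?_
    rw [map_prod, norm_prod]
    refine prod_congr rfl fun a _ => ?_
    rw [map_zpow₀, norm_zpow]
  rw [h1, Real.logb_prod _ _ (fun i _ => prod_ne_zero_iff.2 fun a _ => zpow_ne_zero _ (norm_ne τ (h0 i a))),
    ← sum_neg_distrib]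
  refine sum_congr rfl fun i _ => ?_
  rw [Real.logb_prod _ _ (fun a _ => zpow_ne_zero _ (norm_ne τ (h0 i a))), ← sum_neg_distrib]
  refine sum_congr rfl fun a _ => ?_
  rw [Real.logb, Real.log_zpow, Real.logb]
  ring

/-- two enumerations of the same multiset differ by a permutation -/
lemma exists_perm_of_map_eq {n : ℕ} {γ : Type} {f g : Fin n → γ}
    (h : univ.val.map f = univ.val.map g) : ∃ e : Equiv.Perm (Fin n), ∀ a, f a = g (e a) := by
  classical
  have hc : ∀ c : γ, Fintype.card {a // f a = c} = Fintype.card {a // g a = c} := by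
    intro c
    have h1 := congrArg (Multiset.count c) h
    rw [Multiset.count_map, Multiset.count_map] at h1
    rw [Fintype.card_subtype, Fintype.card_subtype]
    have e1 : ∀ f : Fin n → γ, (univ.filter fun a => f a = c).card =
        Multiset.card (Multiset.filter (fun a => c = f a) univ.val) := by
      intro f
      rw [Finset.card_def, Finset.filter_val]
      congr 1
      exact Multiset.filter_congr fun a _ => eq_comm
    rw [e1, e1]
    exact h1
  refine ⟨Equiv.ofFiberEquiv fun c => Fintype.equivOfCardEq (hc c), fun a => ?_⟩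
  exact (Equiv.ofFiberEquiv_map _ a).symm

/-- a tensor construction of ordinary objects is ordinary -/
lemma up_ord {I : Type} [Fintype I] {m : I → ℕ} (T : Construction m) (s : ∀ i, Fin (m i) → ℝ)
    (h : ∀ i, Fin (m i) → ℤ)
    (hs : ∀ i, univ.val.map (s i) = univ.val.map fun a => (h i a : ℝ)) :
    (univ.val.map fun j => ∑ i, ∑ a, (T.w j i a : ℝ) * s i a) =
      univ.val.map fun j => ((∑ i, ∑ a, T.w j i a * h i a : ℤ) : ℝ) := by
  classical
  choose e he using fun i => exists_perm_of_map_eq (hs i)
  obtain ⟨f, hf⟩ := T.inv fun i => (e i)⁻¹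
  have h1 : (univ.val.map fun j : T.J => ((∑ i, ∑ a, T.w j i a * h i a : ℤ) : ℝ)) =
      univ.val.map fun j : T.J => ((∑ i, ∑ a, T.w (f j) i a * h i a : ℤ) : ℝ) := by
    have h2 : (univ : Finset T.J) = univ.map f.toEmbedding := by simp
    conv_lhs => rw [h2, Finset.map_val, Multiset.map_map]
    rfl
  rw [h1]
  refine Multiset.map_congr rfl fun j _ => ?_
  push_cast
  refine sum_congr rfl fun i _ => ?_
  conv_rhs => rw [← Equiv.sum_comp (e i)]
  refine sum_congr rfl fun a _ => ?_
  rw [he i a, hf]
  simp

end slopes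

/-- **Closure.** An object of the class generated by the `A i` is ordinary at all places of degree one, outside a finite
set of residue characteristics, where all pieces of the `A i` are ordinary. -/
theorem Reach.ordAt {ℓ : ℕ} [Fact ℓ.Prime] {ι : Type} {A : ι → MotSystem K ℓ} {X : Obj K}
    (hX : Reach A X) : ∃ B : Finset ℕ, ∀ v : HeightOneSpectrum (𝓞 K), IsDeg1 B v →
      ∀ (p : ℕ) [Fact p.Prime] (τ : AlgebraicClosure K →+* PadicAlgCl p),
        Ideal.absNorm v.asIdeal = p → Induces τ v →
        (∀ i (σ : (A i).E →+* AlgebraicClosure K), (Obj.piece (A i) σ).OrdAt v τ) → X.OrdAt v τ := by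
  classical
  induction hX with
  | piece i σ => exact ⟨∅, fun v _ p _ τ _ _ h => h i σ⟩
  | tate =>
    refine ⟨∅, fun v _ p _ τ hp _ _ => ⟨?_, ?_⟩⟩
    · change (0 : AlgebraicClosure K) ∉ ({((Ideal.absNorm v.asIdeal : ℕ) : AlgebraicClosure K)} : Multiset _)
      rw [Multiset.mem_singleton, hp]
      have : (p : AlgebraicClosure K) ≠ 0 := by exact_mod_cast (Fact.out : p.Prime).ne_zero
      exact this.symm
    · change (({((Ideal.absNorm v.asIdeal : ℕ) : AlgebraicClosure K)} : Multiset _)).map (slope τ) =
        (({1} : Multiset ℤ)).map fun a : ℤ => (a : ℝ)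
      rw [Multiset.map_singleton, Multiset.map_singleton, hp]
      congr 1
      unfold slope
      rw [map_natCast, norm_p]
      have hp1 : (1 : ℝ) < p := by exact_mod_cast (Fact.out : p.Prime).one_lt
      rw [one_div, Real.logb_inv, Real.logb_self_eq_one hp1]
      simp
  | @up I _ m T X Y hY _ ih =>
    obtain ⟨⟨h, hh, hYh⟩, B, hB⟩ := hY
    choose B' hB' using ih
    refine ⟨B ∪ univ.biUnion B', fun v hv p _ τ hp hi hA => ?_⟩
    have hv1 : IsDeg1 B v := ⟨hv.1, fun hm => hv.2 (mem_union_left _ hm)⟩
    have hv2 : ∀ i, IsDeg1 (B' i) v := fun i =>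
      ⟨hv.1, fun hm => hv.2 (mem_union_right _ (mem_biUnion.2 ⟨i, mem_univ i, hm⟩))⟩
    obtain ⟨α, hα, hYe⟩ := hB v hv1
    have ho : ∀ i, (X i).OrdAt v τ := fun i => hB' i v (hv2 i) p τ hp hi hA
    have h0 : ∀ i a, α i a ≠ 0 := by
      intro i a h
      apply (ho i).1
      rw [← hα i, ← h]
      exact Multiset.mem_map_of_mem _ (mem_univ a)
    constructor
    · rw [hYe, Multiset.mem_map]
      rintro ⟨j, -, hj⟩
      rw [prod_eq_zero_iff] at hj
      obtain ⟨i, -, hj⟩ := hj
      rw [prod_eq_zero_iff] at hj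
      obtain ⟨a, -, hj⟩ := hj
      exact zpow_ne_zero _ (h0 i a) hj
    · have h1 := up_ord T (fun i a => slope τ (α i a)) h fun i => by
        have h2 := (ho i).2
        unfold Obj.newton Obj.hodge at h2
        rw [← hα i, ← hh i, Multiset.map_map, Multiset.map_map] at h2
        exact h2
      unfold Obj.newton Obj.hodge
      rw [hYe, hYh, Multiset.map_map, Multiset.map_map]
      refine Eq.trans ?_ h1
      refine Multiset.map_congr rfl fun j _ => ?_
      exact slope_construct τ α h0 _
  | @down I _ m T X Y hY hM _ i hi ih =>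
    obtain ⟨⟨h, hh, hYh⟩, B, hB⟩ := hY
    choose B' hB' using hM
    obtain ⟨B'', hB''⟩ := ih
    refine ⟨B ∪ (univ.biUnion B' ∪ B''), fun v hv p _ τ hp hind hA => ?_⟩
    have hv1 : IsDeg1 B v := ⟨hv.1, fun hm => hv.2 (mem_union_left _ hm)⟩
    have hv2 : ∀ i, IsDeg1 (B' i) v := fun i =>
      ⟨hv.1, fun hm => hv.2 (mem_union_right _ (mem_union_left _ (mem_biUnion.2 ⟨i, mem_univ i, hm⟩)))⟩
    have hv3 : IsDeg1 B'' v := ⟨hv.1, fun hm => hv.2 (mem_union_right _ (mem_union_right _ hm))⟩
    obtain ⟨α, hα, hYe⟩ := hB v hv1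
    have ho : Y.OrdAt v τ := hB'' v hv3 p τ hp hind hA
    have hMz := fun i => (hB' i v (hv2 i))
    have h0 : ∀ i a, α i a ≠ 0 := by
      intro i a h
      apply (hMz i).1
      rw [← hα i, ← h]
      exact Multiset.mem_map_of_mem _ (mem_univ a)
    have hab := fun i => (hMz i).2 p τ hind
    let s : ∀ i, Fin (m i) → ℝ := fun i a => slope τ (α i a)
    let g : ∀ i, Fin (m i) → ℝ := fun i a => (h i a : ℝ)
    have hns : ∀ i, (X i).newton v τ = univ.val.map (s i) := by
      intro i
      unfold Obj.newton
      rw [← hα i, Multiset.map_map]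
      rfl
    have hhs : ∀ i, (X i).hodge = univ.val.map (g i) := by
      intro i
      unfold Obj.hodge
      rw [← hh i, Multiset.map_map]
      rfl
    have hsum : ∀ i, ∑ a, s i a = ∑ a, g i a := by
      intro i
      have h1 := (hab i).2.1
      rw [hns, hhs] at h1
      exact h1
    have hle : ∀ i, ∑ a, s i a ^ 2 ≤ ∑ a, g i a ^ 2 := by
      intro i
      have h1 := (hab i).maj.1
      rw [hns, hhs, Multiset.map_map, Multiset.map_map] at h1
      exact h1
    have hQ : ∑ j, T.lin s j ^ 2 = ∑ j, T.lin g j ^ 2 := by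
      have h2 := ho.2
      unfold Obj.newton Obj.hodge at h2
      rw [hYe, hYh, Multiset.map_map, Multiset.map_map] at h2
      have h3 := congrArg (fun M : Multiset ℝ => (M.map fun x => x ^ 2).sum) h2
      simp only [Multiset.map_map] at h3
      have h4 : ∀ j, ((fun x : ℝ => x ^ 2) ∘ slope τ ∘ fun j => ∏ i, ∏ a, α i a ^ T.w j i a) j =
          T.lin s j ^ 2 := by
        intro j
        show (slope τ (∏ i, ∏ a, α i a ^ T.w j i a)) ^ 2 = _
        rw [slope_construct τ α h0]
        rfl
      have h5 : ∀ j, ((fun x : ℝ => x ^ 2) ∘ (fun a : ℤ => (a : ℝ)) ∘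
          fun j => ∑ i, ∑ a, T.w j i a * h i a) j = T.lin g j ^ 2 := by
        intro j
        show (((∑ i, ∑ a, T.w j i a * h i a : ℤ) : ℝ)) ^ 2 = _
        push_cast
        rfl
      have h6 : ∑ j, T.lin s j ^ 2 = (univ.val.map ((fun x : ℝ => x ^ 2) ∘ slope τ ∘
          fun j => ∏ i, ∏ a, α i a ^ T.w j i a)).sum := by
        rw [Multiset.map_congr rfl fun j _ => h4 j]
        rfl
      have h7 : ∑ j, T.lin g j ^ 2 = (univ.val.map ((fun x : ℝ => x ^ 2) ∘ (fun a : ℤ => (a : ℝ)) ∘
          fun j => ∑ i, ∑ a, T.w j i a * h i a)).sum := by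
        rw [Multiset.map_congr rfl fun j _ => h5 j]
        rfl
      rw [h6, h7]
      exact h3
    have hkey := T.key s g hsum hle hQ i hi
    refine ⟨(hMz i).1, (hab i).maj.2 ?_⟩
    rw [hns, hhs, Multiset.map_map, Multiset.map_map]
    exact hkey.symm.le

end

end Pool.Agent.W2helper6.RT
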