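import Pool.Agent.W2helper6.RT.Maj

/-!
# Invariant families of weights of products of general linear groups
-/

set_option autoImplicit false

namespace Pool.Agent.W2helper6.RT

open Finset

/-- A tensor construction: a finite family of weights of the product of the groups `GL (m i)`, invariant
under the permutations of the coordinates, for example the weights of a rational representation. -/
structure Construction {I : Type} (m : I → ℕ) where
  J : Type
  [fin : Fintype J]
  w : J → ∀ i, Fin (m i) → ℤ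
  inv : ∀ σ : (∀ i, Equiv.Perm (Fin (m i))), ∃ e : Equiv.Perm J, ∀ j i a, w (e j) i a = w j i (σ i a)

attribute [instance] Construction.fin

/-- The construction depends on the `i`-th variable in an essential way: it is not only a sum of powers
of the determinant as a representation of `GL (m i)`, or `m i ≤ 1`. -/
def Construction.Essential {I : Type} {m : I → ℕ} (T : Construction m) (i : I) : Prop :=
  m i ≤ 1 ∨ ∃ (j : T.J) (a b : Fin (m i)), T.w j i a ≠ T.w j i b

namespace Construction

variable {I : Type} [Fintype I] {m : I → ℕ} (T : Construction m)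

/-- the value of the weight `j` at the cocharacter `x` -/
noncomputable def lin (x : ∀ i, Fin (m i) → ℝ) (j : T.J) : ℝ := ∑ i, ∑ a, (T.w j i a : ℝ) * x i a

/-- the Gram matrix of the weights -/
noncomputable def gram (i : I) (a : Fin (m i)) (k : I) (b : Fin (m k)) : ℝ :=
  ∑ j, (T.w j i a : ℝ) * (T.w j k b : ℝ)

lemma gram_symm (i : I) (a : Fin (m i)) (k : I) (b : Fin (m k)) :
    T.gram i a k b = T.gram k b i a := by
  unfold gram
  exact sum_congr rfl fun j _ => mul_comm _ _

lemma gram_inv (σ : ∀ i, Equiv.Perm (Fin (m i))) (i : I) (a : Fin (m i)) (k : I) (b : Fin (m k)) :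
    T.gram i (σ i a) k (σ k b) = T.gram i a k b := by
  obtain ⟨e, he⟩ := T.inv σ
  unfold gram
  conv_rhs => rw [← Equiv.sum_comp e]
  exact sum_congr rfl fun j _ => by rw [he, he]

/-- two-transitivity of the symmetric group -/
lemma exists_perm {n : ℕ} {a b a' b' : Fin n} (h : a ≠ b) (h' : a' ≠ b') :
    ∃ σ : Equiv.Perm (Fin n), σ a = a' ∧ σ b = b' := by
  classical
  refine ⟨Equiv.swap (Equiv.swap a a' b) b' * Equiv.swap a a', ?_, ?_⟩
  · rw [Equiv.Perm.mul_apply, Equiv.swap_apply_left]
    apply Equiv.swap_apply_of_ne_of_ne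
    · intro h1
      apply h
      have h2 : Equiv.swap a a' a = Equiv.swap a a' b := by rw [Equiv.swap_apply_left, ← h1]
      exact (Equiv.swap a a').injective h2
    · exact h'
  · rw [Equiv.Perm.mul_apply, Equiv.swap_apply_left]

lemma gram_off {i k : I} (hik : i ≠ k) (a a' : Fin (m i)) (b b' : Fin (m k)) :
    T.gram i a k b = T.gram i a' k b' := by
  classical
  let σ : ∀ i, Equiv.Perm (Fin (m i)) := Function.update (Function.update (fun _ => 1) i (Equiv.swap a a')) k
    (Equiv.swap b b')
  have h1 : σ i = Equiv.swap a a' := by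
    simp only [σ]
    rw [Function.update_of_ne hik, Function.update_self]
  have h2 : σ k = Equiv.swap b b' := by
    simp only [σ]
    rw [Function.update_self]
  rw [← T.gram_inv σ i a k b, h1, h2, Equiv.swap_apply_left, Equiv.swap_apply_left]

lemma gram_same (i : I) {a b a' b' : Fin (m i)} (h : a ≠ b) (h' : a' ≠ b') :
    T.gram i a i b = T.gram i a' i b' := by
  classical
  obtain ⟨s, h1, h2⟩ := exists_perm h h'
  let σ : ∀ i, Equiv.Perm (Fin (m i)) := Function.update (fun _ => 1) i s
  have h3 : σ i = s := by simp only [σ]; rw [Function.update_self]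
  rw [← T.gram_inv σ i a i b, h3, h1, h2]

lemma gram_diag (i : I) (a a' : Fin (m i)) : T.gram i a i a = T.gram i a' i a' := by
  classical
  let σ : ∀ i, Equiv.Perm (Fin (m i)) := Function.update (fun _ => 1) i (Equiv.swap a a')
  have h3 : σ i = Equiv.swap a a' := by simp only [σ]; rw [Function.update_self]
  rw [← T.gram_inv σ i a i a, h3, Equiv.swap_apply_left]

lemma gram_diff (i : I) (a b : Fin (m i)) :
    T.gram i a i a + T.gram i b i b - 2 * T.gram i a i b =
      ∑ j, ((T.w j i a : ℝ) - (T.w j i b : ℝ)) ^ 2 := by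
  unfold gram
  rw [mul_sum, ← sum_add_distrib, ← sum_sub_distrib]
  exact sum_congr rfl fun j _ => by ring

/-- the diagonal blocks of the Gram matrix -/
lemma exists_block (i : I) : ∃ β c : ℝ, 0 ≤ c ∧ ((∃ (j : T.J) (a b : Fin (m i)), T.w j i a ≠ T.w j i b) → 0 < c) ∧
    ∀ a b : Fin (m i), T.gram i a i b = β + if a = b then c else 0 := by
  by_cases h : ∃ a b : Fin (m i), a ≠ b
  · obtain ⟨a0, b0, h0⟩ := h
    have hd := fun a b => T.gram_diff i a b
    have hc : ∀ a b : Fin (m i), a ≠ b → 2 * (T.gram i a0 i a0 - T.gram i a0 i b0) =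
        ∑ j, ((T.w j i a : ℝ) - (T.w j i b : ℝ)) ^ 2 := by
      intro a b hab
      rw [← hd a b, T.gram_diag i a a0, T.gram_diag i b a0, T.gram_same i hab h0]
      ring
    refine ⟨T.gram i a0 i b0, T.gram i a0 i a0 - T.gram i a0 i b0, ?_, ?_, ?_⟩
    · have := hc a0 b0 h0
      have h1 : 0 ≤ ∑ j, ((T.w j i a0 : ℝ) - (T.w j i b0 : ℝ)) ^ 2 := sum_nonneg fun j _ => sq_nonneg _
      linarith
    · rintro ⟨j, a, b, hw⟩
      have hab : a ≠ b := fun h => hw (by rw [h])
      have := hc a b hab
      have h1 : 0 < ∑ j, ((T.w j i a : ℝ) - (T.w j i b : ℝ)) ^ 2 := by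
        refine sum_pos' (fun j _ => sq_nonneg _) ⟨j, mem_univ j, ?_⟩
        have h2 : (T.w j i a : ℝ) - (T.w j i b : ℝ) ≠ 0 := by
          rw [sub_ne_zero]
          exact_mod_cast hw
        positivity
      linarith
    · intro a b
      by_cases hab : a = b
      · subst hab
        rw [if_pos rfl, T.gram_diag i a a0]
        ring
      · rw [if_neg hab, add_zero]
        exact T.gram_same i hab h0
  · push Not at h
    by_cases h1 : Nonempty (Fin (m i))
    · obtain ⟨a0⟩ := h1
      refine ⟨0, T.gram i a0 i a0, ?_, ?_, ?_⟩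
      · unfold gram
        exact sum_nonneg fun j _ => mul_self_nonneg _
      · rintro ⟨j, a, b, hw⟩
        exact absurd (by rw [h a b]) hw
      · intro a b
        rw [h a a0, h b a0, if_pos rfl, zero_add]
    · refine ⟨0, 0, le_rfl, ?_, fun a => absurd ⟨a⟩ h1⟩
      rintro ⟨j, a, b, hw⟩
      exact absurd ⟨a⟩ h1

/-- the Gram matrix -/
lemma exists_gram : ∃ (β : I → I → ℝ) (c : I → ℝ), (∀ i, 0 ≤ c i) ∧
    (∀ i, (∃ (j : T.J) (a b : Fin (m i)), T.w j i a ≠ T.w j i b) → 0 < c i) ∧
    (∀ i (a b : Fin (m i)), T.gram i a i b = β i i + if a = b then c i else 0) ∧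
    ∀ i k (a : Fin (m i)) (b : Fin (m k)), i ≠ k → T.gram i a k b = β i k := by
  classical
  choose β c h1 h2 h3 using T.exists_block
  let γ : I → I → ℝ := fun i k => if i = k then β i else
    if h : Nonempty (Fin (m i)) ∧ Nonempty (Fin (m k)) then T.gram i h.1.some k h.2.some else 0
  refine ⟨γ, c, h1, h2, fun i a b => ?_, fun i k a b hik => ?_⟩
  · have hγ : γ i i = β i := by simp [γ]
    rw [hγ, h3]
  · simp only [γ]
    rw [if_neg hik, dif_pos ⟨⟨a⟩, ⟨b⟩⟩]
    exact T.gram_off hik _ _ _ _

lemma sum_sq (x : ∀ i, Fin (m i) → ℝ) :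
    ∑ j, T.lin x j ^ 2 = ∑ i, ∑ a, x i a * ∑ k, ∑ b, T.gram i a k b * x k b := by
  have h1 : ∀ j, T.lin x j ^ 2 = ∑ i, ∑ a, ∑ k, ∑ b,
      x i a * (((T.w j i a : ℝ) * (T.w j k b : ℝ)) * x k b) := by
    intro j
    rw [sq]
    conv_lhs => rw [lin, sum_mul]
    refine sum_congr rfl fun i _ => ?_
    rw [sum_mul]
    refine sum_congr rfl fun a _ => ?_
    rw [mul_sum]
    refine sum_congr rfl fun k _ => ?_
    rw [mul_sum]
    refine sum_congr rfl fun b _ => ?_
    ring
  simp only [h1]
  rw [sum_comm]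
  refine sum_congr rfl fun i _ => ?_
  rw [sum_comm]
  refine sum_congr rfl fun a _ => ?_
  rw [mul_sum, sum_comm]
  refine sum_congr rfl fun k _ => ?_
  rw [mul_sum, sum_comm]
  refine sum_congr rfl fun b _ => ?_
  rw [← mul_sum, ← sum_mul]
  rfl

/-- **The key computation.** -/
theorem key (s h : ∀ i, Fin (m i) → ℝ) (hsum : ∀ i, ∑ a, s i a = ∑ a, h i a)
    (hle : ∀ i, ∑ a, s i a ^ 2 ≤ ∑ a, h i a ^ 2)
    (hQ : ∑ j, T.lin s j ^ 2 = ∑ j, T.lin h j ^ 2) (i : I) (hi : T.Essential i) :
    ∑ a, s i a ^ 2 = ∑ a, h i a ^ 2 := by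
  classical
  obtain ⟨β, c, hc0, hc1, hg1, hg2⟩ := T.exists_gram
  have hex : ∀ x : ∀ i, Fin (m i) → ℝ, ∑ j, T.lin x j ^ 2 =
      (∑ i, (∑ a, x i a) * ∑ k, β i k * ∑ b, x k b) + ∑ i, c i * ∑ a, x i a ^ 2 := by
    intro x
    rw [T.sum_sq x, ← sum_add_distrib]
    refine sum_congr rfl fun i _ => ?_
    rw [sum_mul, mul_sum, ← sum_add_distrib]
    refine sum_congr rfl fun a _ => ?_
    have h1 : ∀ k, ∑ b, T.gram i a k b * x k b = β i k * ∑ b, x k b +
        if k = i then c i * x i a else 0 := by
      intro k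
      by_cases hk : k = i
      · subst hk
        rw [if_pos rfl]
        have : ∀ b, T.gram k a k b * x k b = β k k * x k b + if a = b then c k * x k a else 0 := by
          intro b
          rw [hg1]
          by_cases hab : a = b
          · subst hab
            rw [if_pos rfl, if_pos rfl]
            ring
          · rw [if_neg hab, if_neg hab]
            ring
        simp only [this]
        rw [sum_add_distrib, ← mul_sum]
        simp
      · rw [if_neg hk, add_zero, mul_sum]
        exact sum_congr rfl fun b _ => by rw [hg2 i k a b (Ne.symm hk)]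
    simp only [h1]
    rw [sum_add_distrib, sum_ite_eq' univ i]
    simp only [mem_univ, if_true]
    ring
  have e1 := hex s
  have e2 := hex h
  have e3 : (∑ i, (∑ a, s i a) * ∑ k, β i k * ∑ b, s k b) =
      ∑ i, (∑ a, h i a) * ∑ k, β i k * ∑ b, h k b := by
    refine sum_congr rfl fun i _ => ?_
    rw [hsum i]
    congr 1
    exact sum_congr rfl fun k _ => by rw [hsum k]
  have e4 : ∑ i, c i * ∑ a, s i a ^ 2 = ∑ i, c i * ∑ a, h i a ^ 2 := by linarith
  have e5 : ∀ i ∈ univ, c i * ∑ a, s i a ^ 2 = c i * ∑ a, h i a ^ 2 := by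
    have := (sum_eq_sum_iff_of_le (s := univ) (f := fun i => c i * ∑ a, s i a ^ 2)
      (g := fun i => c i * ∑ a, h i a ^ 2)
      (fun i _ => mul_le_mul_of_nonneg_left (hle i) (hc0 i))).1 e4
    exact this
  rcases hi with hi | hi
  · -- rank at most one
    have hsub : ∀ a b : Fin (m i), a = b := by
      intro a b
      apply Fin.ext
      have := a.2
      have := b.2
      omega
    by_cases hne : Nonempty (Fin (m i))
    · obtain ⟨a0⟩ := hne
      have hu : (univ : Finset (Fin (m i))) = {a0} := by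
        ext a
        simp [hsub a a0]
      have h1 := hsum i
      rw [hu, sum_singleton, sum_singleton] at h1
      rw [hu, sum_singleton, sum_singleton, h1]
    · have hu : (univ : Finset (Fin (m i))) = ∅ := by
        ext a
        exact absurd ⟨a⟩ hne
      rw [hu, sum_empty, sum_empty]
  · have h1 := hc1 i hi
    have h2 := e5 i (mem_univ i)
    exact mul_left_cancel₀ h1.ne' h2

end Construction

end Pool.Agent.W2helper6.RT
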